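import Pool.Agent.R941.BC.Fin

/-!
# Positive scalar curvature and extensions whose kernel has an ascending series with hyperbolic factors

`B` is a class of groups with the inheritance properties of the Baum–Connes conjecture with
coefficients (countable groups; subgroups, directed unions, and the extension criterion of
Chabert–Echterhoff and Oyono-Oyono), which contains the finite groups, and `S` satisfies the extension
criterion for injectivity of the assembly maps with coefficients (`Inherit B S`).  A closed aspherical
manifold whose fundamental group is in `S` has no metric of positive scalar curvature, and such a metric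
lifts to finite coverings: this is the property `A` of fundamental groups in (5).

Let `N` be a normal subgroup of the countable group `G`, and suppose that `N` has an ascending series of
normal subgroups of `G`, of any ordinal length, with admissible factors (`Series B N 𝓜`; the
members of `𝓜` are closed under unions of chains, contain `1`, and each member `M < N` has a
successor `M' ≤ N` in `𝓜` with an admissible factor `P = M' ⧸ M` in `Q = G ⧸ M`). Then all
subgroups of `G` in which `N` has finite index are in `B`, and `G` is in `B` (in `S`) if `G ⧸ N` is.

A factor `P` is admissible if

* every subgroup of `Q` in which `P` has finite index is in `B`, or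
* every countable group with a normal subgroup of finite index isomorphic to `P` is in `B` (`V B P`);
  for instance `P` is a countable hyperbolic group (Lafforgue's theorem), or a countable group in the
  elementary closure of the class of a-T-menable groups (`W B`), or
* `P` is the restricted direct product of subgroups `K i` in `V B`, `i ∈ I` (`I` may be infinite), which
  are normalized by all elements of `Q` with a positive power in `P`.

By (3) the last condition on `Q` is automatic if the `K i` have trivial centres and are directly
indecomposable and pairwise non-isomorphic, for example for non-elementary torsion-free hyperbolic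
groups. By (4) it is enough that `P` is in `B` if `Q ⧸ P` is torsion-free.

Outline of the proof. Consider the members `M` of the series such that all subgroups of `G` in which
`M` has finite index are in `B`. This property passes to unions of chains: a finitely generated
subgroup `L` of a group `H`, in which the union `M` has finite index, meets `M` in a finitely generated
group, which is contained in some member `M_i` of the chain, so that `L` is contained in `M_i L`,
and `M_i` has finite index there. It passes to `M'` by the extension criterion. For (3): the
decomposition of a group into centreless directly indecomposable factors is unique.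
-/

set_option autoImplicit false

namespace Pool.Agent.Results.MP_df705a_gt.HyperExtensions

open Pool.Agent.R941.BC

theorem result {B S : ∀ (G : Type) [Group G], Prop} (h : Inherit B S)
    (hfin : ∀ (F : Type) [Group F] [Finite F], B F) :
    -- (1) the extension theorem
    (∀ (G : Type) [Group G] [Countable G] (N : Subgroup G) [N.Normal] (𝓜 : Set (Subgroup G)),
      Series B N 𝓜 → (∀ H : Subgroup G, N ≤ H → N.relIndex H ≠ 0 → B H) ∧
        (B (G ⧸ N) → B G) ∧ (S (G ⧸ N) → S G)) ∧
    -- (2) groups in `W B` are in `V B`
    (∀ (Q : Type) [Group Q], W B Q → V B Q) ∧
    -- (3) products of centreless indecomposable groups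
    (∀ (Q : Type) [Group Q] (P : Subgroup Q) [P.Normal] (I : Type) (K : I → Subgroup Q),
      IsProd P K → (∀ i j, i ≠ j → ∀ x ∈ K i, ∀ y ∈ K j, x * y = y * x) →
      (∀ i, Indec (K i)) → (∀ i j, Nonempty (K i ≃* K j) → i = j) → (∀ i, V B (K i)) →
      (∀ i, (K i).Normal) ∧ Adm B P) ∧
    -- (4) torsion-free quotients
    (∀ (Q : Type) [Group Q] (P : Subgroup Q), B P →
      (∀ (g : Q) (n : ℕ), 0 < n → g ^ n ∈ P → g ∈ P) → Adm B P) ∧
    -- (5) groups of closed aspherical manifolds without positive scalar curvature
    (∀ A : ∀ (G : Type) [Group G], Prop, (∀ (G : Type) [Group G] [Countable G], S G → A G) →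
      (∀ (G : Type) [Group G] (L : Subgroup G), L.FiniteIndex → A L → A G) →
      ∀ (G : Type) [Group G] [Countable G] (L : Subgroup G), L.FiniteIndex →
      ∀ (N : Subgroup L) [N.Normal] (𝓜 : Set (Subgroup L)), Series B N 𝓜 → S (L ⧸ N) → A G) :=
  ⟨fun _ _ _ N _ 𝓜 hs => series_all h hfin N 𝓜 hs, fun _ _ hQ => V_of_W hQ,
    fun _ _ P _ _ K h1 h2 h3 h4 h5 => ⟨factor_normal h1 h2 h3 h4, adm_indec P K h1 h2 h3 h4 h5⟩,
    fun _ _ P h1 h2 => adm_torsionFree P h1 h2,
    fun _ hA1 hA2 G _ _ L hL N _ 𝓜 hs hS => hA2 G L hL (hA1 L ((series_all h hfin N 𝓜 hs).2.2 hS))⟩

end Pool.Agent.Results.MP_df705a_gt.HyperExtensions
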