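import Pool.Agent.R779.BC.Rh

/-!
# Residual hierarchies and positive scalar curvature

A closed aspherical spin manifold whose fundamental group satisfies the strong Novikov conjecture has no
metric of positive scalar curvature. `B` is a class of groups with the inheritance properties of the
Baum–Connes conjecture with coefficients, and `S` satisfies the extension criterion for injectivity of
the assembly maps with coefficients (`Inherit B S`), which implies the strong Novikov conjecture; `W B`
contains the free groups.

`W B` is the class of the groups `G` such that every countable group with a subgroup of finite index
which embeds in a finite power of `G` is in `B` (equivalently: finite wreath products over `G`). It is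
closed under subgroups, overgroups of finite index, directed unions and arbitrary extensions
(`MP_ba76ae_gt.ElementaryExtensions`); `B` is closed under actions on trees (Oyono-Oyono, Tu), but this
is not known for `W B`.

Let `N` have a hierarchy that ends in groups in `W B`: it is built from groups in `W B` by finitely many
steps which are amalgamated products and HNN extensions whose edge groups satisfy the descending chain
condition for isolated normal subgroups (normal subgroups with torsion-free quotient), or directed
unions. If `N` is residually a torsion-free member of `W B` then `N` is in `W B`. So, if `N` is normal in
the countable group `G` and `G / N` is in `B` (in `S`), then `G` is in `B` (in `S`).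

The chain condition holds for the groups of finite Hirsch length (polycyclic groups, `ℚⁿ`, solvable
groups of finite rank), for simple groups and for groups all of whose nontrivial normal subgroups have
finite index.

Outline of the proof. The kernels of homomorphisms to torsion-free groups in `W B` meet an edge group in
isolated normal subgroups, so one homomorphism to a torsion-free group in `W B` is injective on the edge
group; its kernel is in `W B` by `MP_ba76ae_gt.KernelsOfSplittings`. The chain condition for groups of
finite Hirsch length is proved in `MP_63c928_gt.ResidualHierarchies` (helper632), the theorem for
Farrell–Jones classes.
-/

set_option autoImplicit false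

namespace Pool.Agent.Results.MP_df705a_gt.ResidualHierarchies

open Pool.Agent.R632.RH (FiniteHirsch ResTF)
open Pool.Agent.R941.BC (Inherit W)
open Pool.Agent.R779.BC (DCC Hier)

theorem result {B S : ∀ (G : Type) [Group G], Prop} (h : Inherit B S)
    (hF : W B (FreeGroup ℕ)) :
    (∀ (K : Type) [Group K], FiniteHirsch K → DCC K) ∧
    ∀ (N : Type) [Group N], Hier (W B) N → ResTF (W B) N → W B N ∧
      ∀ (G : Type) [Group G] (f : N →* G), Function.Injective f → ∀ [f.range.Normal], Countable G →
        (B (G ⧸ f.range) → B G) ∧ (S (G ⧸ f.range) → S G) :=
  Pool.Agent.R779.BC.hier_main h hF

end Pool.Agent.Results.MP_df705a_gt.ResidualHierarchies
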